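import Pool.Agent.H51.MFQ.S1

/-!
# Ordered monomials

`mo x α`: the ordered monomial in the elements `x i`. `mo_head`: multiplication by an element which
is not larger than the others. `low x k`: the span of the ordered monomials of degree less than `k`.
`mo_swap`: for elements with commutators in their span, the product with `x i` is the ordered
monomial, modulo lower degree. `mo_top`: the ordered monomials span the enveloping algebra.
-/

set_option autoImplicit false

namespace Pool.MFQ

open Module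

namespace Ord

section ring

variable {U : Type} [Ring U]

/-- The ordered monomial. -/
def mo {n : ℕ} (x : Fin n → U) (α : Fin n → ℕ) : U := (List.ofFn fun i => x i ^ α i).prod

theorem mo_zero {n : ℕ} (x : Fin n → U) : mo x 0 = 1 := by
  unfold mo
  have h : (fun i => x i ^ (0 : Fin n → ℕ) i) = fun _ => (1 : U) := by
    funext i
    rw [Pi.zero_apply, pow_zero]
  rw [h, List.ofFn_const, List.prod_replicate, one_pow]

theorem mo_succ {n : ℕ} (x : Fin (n + 1) → U) (α : Fin (n + 1) → ℕ) :
    mo x α = x 0 ^ α 0 * mo (fun i => x i.succ) (fun i => α i.succ) := by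
  unfold mo
  rw [List.ofFn_succ, List.prod_cons]

theorem mo_add {p q : ℕ} (x : Fin (p + q) → U) (α : Fin (p + q) → ℕ) :
    mo x α = mo (fun i => x (Fin.castAdd q i)) (fun i => α (Fin.castAdd q i)) *
      mo (fun i => x (Fin.natAdd p i)) (fun i => α (Fin.natAdd p i)) := by
  unfold mo
  rw [List.ofFn_add, List.prod_append]
  rfl

/-- Multiplication by an element which is not larger than the others. -/
theorem mo_head {n : ℕ} (x : Fin n → U) (i : Fin n) (α : Fin n → ℕ) (h : ∀ j < i, α j = 0) :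
    x i * mo x α = mo x (α + Pi.single i 1) := by
  induction n with
  | zero => exact i.elim0
  | succ n ih =>
    rw [mo_succ, mo_succ]
    refine Fin.cases ?_ (fun i' => ?_) i (motive := fun i => (∀ j < i, α j = 0) →
      x i * (x 0 ^ α 0 * mo (fun i => x i.succ) (fun i => α i.succ)) =
      x 0 ^ (α + Pi.single i 1 : Fin (n + 1) → ℕ) 0 * mo (fun i => x i.succ)
        (fun j => (α + Pi.single i 1 : Fin (n + 1) → ℕ) j.succ)) h
    · intro _
      have h1 : (α + Pi.single 0 1 : Fin (n + 1) → ℕ) 0 = α 0 + 1 := by simp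
      have h2 : (fun j : Fin n => (α + Pi.single 0 1 : Fin (n + 1) → ℕ) j.succ) =
          fun j => α j.succ := by
        funext j
        simp
      rw [h1, h2, pow_succ', mul_assoc]
    · intro h
      have h0 : α 0 = 0 := h 0 (Fin.succ_pos i')
      have h1 : (α + Pi.single i'.succ 1 : Fin (n + 1) → ℕ) 0 = 0 := by
        rw [Pi.add_apply, h0, Pi.single_eq_of_ne (Fin.succ_ne_zero i').symm, add_zero]
      have h2 : (fun j : Fin n => (α + Pi.single i'.succ 1 : Fin (n + 1) → ℕ) j.succ) =
          (fun j => α j.succ) + Pi.single i' 1 := by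
        funext j
        rw [Pi.add_apply, Pi.add_apply]
        rcases eq_or_ne j i' with h3 | h3
        · rw [h3, Pi.single_eq_same, Pi.single_eq_same]
        · rw [Pi.single_eq_of_ne h3, Pi.single_eq_of_ne fun h4 => h3 (Fin.succ_injective n h4)]
      rw [h1, h2, h0, pow_zero, one_mul, one_mul]
      exact ih (fun i => x i.succ) i' (fun j => α j.succ) fun j hj =>
        h j.succ (Fin.succ_lt_succ_iff.2 hj)

/-- The first element of a nonzero exponent. -/
theorem ex_head {n : ℕ} {α : Fin n → ℕ} {i : Fin n} (hi : α i ≠ 0) : ∃ (j : Fin n)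
    (β : Fin n → ℕ), j ≤ i ∧ (∀ k < j, β k = 0) ∧ (∀ k < j, α k = 0) ∧
      α = β + Pi.single j 1 ∧ ∑ k, α k = ∑ k, β k + 1 := by
  classical
  have hne : (Finset.univ.filter fun j => α j ≠ 0).Nonempty := ⟨i, by simp [hi]⟩
  obtain ⟨j, hj⟩ : ∃ j, j = (Finset.univ.filter fun j => α j ≠ 0).min' hne := ⟨_, rfl⟩
  have h1 : α j ≠ 0 := by
    have := Finset.min'_mem _ hne
    rw [← hj, Finset.mem_filter] at this
    exact this.2
  have h2 : ∀ k < j, α k = 0 := fun k hk => by
    by_contra hcon
    have := Finset.min'_le (Finset.univ.filter fun j => α j ≠ 0) k (by simp [hcon])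
    rw [← hj] at this
    exact absurd hk (not_lt.2 this)
  have h3 : j ≤ i := by
    rw [hj]
    exact Finset.min'_le _ _ (by simp [hi])
  have h4 : α = (fun k => α k - (Pi.single j 1 : Fin n → ℕ) k) + Pi.single j 1 := by
    funext k
    rw [Pi.add_apply]
    rcases eq_or_ne k j with h5 | h5
    · rw [h5, Pi.single_eq_same]
      omega
    · rw [Pi.single_eq_of_ne h5]
      omega
  refine ⟨j, fun k => α k - (Pi.single j 1 : Fin n → ℕ) k, h3, fun k hk => ?_, h2, h4, ?_⟩
  · show α k - (Pi.single j 1 : Fin n → ℕ) k = 0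
    rw [h2 k hk]
    omega
  · have h5 : ∑ k, α k = ∑ k, ((fun k => α k - (Pi.single j 1 : Fin n → ℕ) k) +
        Pi.single j 1 : Fin n → ℕ) k := by rw [← h4]
    rw [h5]
    simp only [Pi.add_apply]
    rw [Finset.sum_add_distrib, Finset.sum_pi_single' j (1 : ℕ) Finset.univ,
      if_pos (Finset.mem_univ j)]

theorem sum_single {n : ℕ} (α : Fin n → ℕ) (i : Fin n) :
    ∑ k, (α + Pi.single i 1 : Fin n → ℕ) k = ∑ k, α k + 1 := by
  classical
  simp only [Pi.add_apply]
  rw [Finset.sum_add_distrib, Finset.sum_pi_single' i (1 : ℕ) Finset.univ,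
    if_pos (Finset.mem_univ i)]

end ring

section alg

variable {U : Type} [Ring U] [Algebra ℂ U]

/-- The span of the ordered monomials of degree less than `k`. -/
def low {n : ℕ} (x : Fin n → U) (k : ℕ) : Submodule ℂ U :=
  Submodule.span ℂ {u | ∃ α : Fin n → ℕ, ∑ i, α i < k ∧ u = mo x α}

theorem low_mono {n : ℕ} (x : Fin n → U) {k l : ℕ} (h : k ≤ l) : low x k ≤ low x l :=
  Submodule.span_mono fun _ ⟨α, h1, h2⟩ => ⟨α, h1.trans_le h, h2⟩

theorem mem_low {n : ℕ} (x : Fin n → U) {k : ℕ} {α : Fin n → ℕ} (h : ∑ i, α i < k) :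
    mo x α ∈ low x k := Submodule.subset_span ⟨α, h, rfl⟩

/-- Multiplication of the ordered monomials of lower degree. -/
theorem low_mul {n : ℕ} {x : Fin n → U} {k : ℕ} {i : Fin n}
    (h : ∀ α : Fin n → ℕ, ∑ j, α j < k → x i * mo x α ∈ low x (∑ j, α j + 2)) {u : U}
    (hu : u ∈ low x k) : x i * u ∈ low x (k + 1) := by
  refine Submodule.span_induction (p := fun u _ => x i * u ∈ low x (k + 1)) ?_ ?_ ?_ ?_ hu
  · rintro u ⟨α, h1, rfl⟩
    exact low_mono x (by omega) (h α h1)
  · rw [mul_zero]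
    exact zero_mem _
  · intro u v _ _ h1 h2
    rw [mul_add]
    exact add_mem h1 h2
  · intro c u _ h1
    rw [mul_smul_comm]
    exact Submodule.smul_mem _ c h1

/-- **The product with `x i`** is the ordered monomial, modulo lower degree. -/
theorem mo_swap {n : ℕ} {x : Fin n → U}
    (hx : ∀ i j, ∃ c : Fin n → ℂ, x i * x j - x j * x i = ∑ k, c k • x k) (k : ℕ) :
    ∀ (i : Fin n) (α : Fin n → ℕ), ∑ j, α j = k →
      x i * mo x α - mo x (α + Pi.single i 1) ∈ low x (k + 1) := by
  induction k using Nat.strong_induction_on with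
  | _ k ih =>
  have hmul : ∀ (i : Fin n) (α : Fin n → ℕ), ∑ j, α j < k → x i * mo x α ∈
      low x (∑ j, α j + 2) := fun i α h => by
    have h1 := ih _ h i α rfl
    have h2 : x i * mo x α = (x i * mo x α - mo x (α + Pi.single i 1)) +
      mo x (α + Pi.single i 1) := (sub_add_cancel _ _).symm
    rw [h2]
    exact add_mem (low_mono x (by omega) h1) (mem_low x (by rw [sum_single]; omega))
  intro i α hα
  by_cases hz : ∀ j < i, α j = 0
  · rw [mo_head x i α hz, sub_self]
    exact zero_mem _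
  · push Not at hz
    obtain ⟨i', hi', hαi'⟩ := hz
    obtain ⟨j, β, h1, h2, h3, h4, h5⟩ := ex_head hαi'
    have hji : j < i := h1.trans_lt hi'
    have hβk : ∑ l, β l < k := by omega
    have e1 : mo x α = x j * mo x β := by rw [mo_head x j β h2, ← h4]
    have e2 : x j * mo x (β + Pi.single i 1) = mo x (α + Pi.single i 1) := by
      rw [mo_head x j (β + Pi.single i 1) fun l hl => by
        rw [Pi.add_apply, h2 l hl, Pi.single_eq_of_ne (hl.trans hji).ne, add_zero], h4,
        add_right_comm]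
    obtain ⟨c, hc⟩ := hx i j
    have e3 : x i * mo x α - mo x (α + Pi.single i 1) =
        x j * (x i * mo x β - mo x (β + Pi.single i 1)) + ∑ l, c l • (x l * mo x β) := by
      have e4 : ∑ l, c l • (x l * mo x β) = (x i * x j - x j * x i) * mo x β := by
        rw [hc, Finset.sum_mul]
        exact Finset.sum_congr rfl fun l _ => (smul_mul_assoc _ _ _).symm
      rw [e4, e1, ← e2, mul_sub, sub_mul]
      simp only [mul_assoc]
      abel
    rw [e3]
    refine add_mem ?_ (sum_mem fun l _ => Submodule.smul_mem _ _ ?_)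
    · have h6 := ih _ hβk i β rfl
      have h7 := low_mul (k := ∑ l, β l + 1) (i := j) (fun α' hα' => hmul j α' (by omega)) h6
      exact low_mono x (by omega) h7
    · exact low_mono x (by omega) (hmul l β hβk)

/-- The product with `x i`. -/
theorem mul_low {n : ℕ} {x : Fin n → U}
    (hx : ∀ i j, ∃ c : Fin n → ℂ, x i * x j - x j * x i = ∑ k, c k • x k) {k : ℕ} (i : Fin n)
    {u : U} (hu : u ∈ low x k) : x i * u ∈ low x (k + 1) := by
  refine low_mul (fun α _ => ?_) hu
  have h1 := mo_swap hx _ i α rfl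
  have h2 : x i * mo x α = (x i * mo x α - mo x (α + Pi.single i 1)) +
    mo x (α + Pi.single i 1) := (sub_add_cancel _ _).symm
  rw [h2]
  exact add_mem (low_mono x (by omega) h1) (mem_low x (by rw [sum_single]; omega))

end alg

section lie

attribute [local instance 100] LieRing.ofAssociativeRing

variable {𝔤 : Type} [LieRing 𝔤] [LieAlgebra ℂ 𝔤]

/-- The elements of a basis in the enveloping algebra. -/
theorem comm_basis {n : ℕ} (b : Basis (Fin n) ℂ 𝔤) (i j : Fin n) :
    UniversalEnvelopingAlgebra.ι ℂ (b i) * UniversalEnvelopingAlgebra.ι ℂ (b j) -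
      UniversalEnvelopingAlgebra.ι ℂ (b j) * UniversalEnvelopingAlgebra.ι ℂ (b i) =
      ∑ k, b.repr ⁅b i, b j⁆ k • UniversalEnvelopingAlgebra.ι ℂ (b k) := by
  have h1 : UniversalEnvelopingAlgebra.ι ℂ (b i) * UniversalEnvelopingAlgebra.ι ℂ (b j) -
      UniversalEnvelopingAlgebra.ι ℂ (b j) * UniversalEnvelopingAlgebra.ι ℂ (b i) =
      UniversalEnvelopingAlgebra.ι ℂ ⁅b i, b j⁆ := by
    rw [LieHom.map_lie]
    rfl
  rw [h1]
  conv_lhs => rw [← b.sum_repr ⁅b i, b j⁆]
  rw [map_sum]
  exact Finset.sum_congr rfl fun k _ => map_smul _ _ _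

/-- The enveloping algebra is generated by the Lie algebra. -/
theorem uea_top {A : Subalgebra ℂ (UniversalEnvelopingAlgebra ℂ 𝔤)}
    (h : ∀ y : 𝔤, UniversalEnvelopingAlgebra.ι ℂ y ∈ A) (u : UniversalEnvelopingAlgebra ℂ 𝔤) :
    u ∈ A := by
  obtain ⟨f, hf⟩ : ∃ f : 𝔤 →ₗ⁅ℂ⁆ A, ∀ y, (f y : UniversalEnvelopingAlgebra ℂ 𝔤) =
      UniversalEnvelopingAlgebra.ι ℂ y :=
    ⟨{ toFun := fun y => ⟨UniversalEnvelopingAlgebra.ι ℂ y, h y⟩
       map_add' := fun y z => Subtype.ext (map_add _ _ _)
       map_smul' := fun c y => Subtype.ext (map_smul _ _ _)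
       map_lie' := fun {y z} => Subtype.ext (LieHom.map_lie _ _ _) }, fun _ => rfl⟩
  have h1 : A.val.comp (UniversalEnvelopingAlgebra.lift ℂ f) =
      AlgHom.id ℂ (UniversalEnvelopingAlgebra ℂ 𝔤) := by
    refine UniversalEnvelopingAlgebra.hom_ext ℂ (LieHom.ext fun y => ?_)
    show ((UniversalEnvelopingAlgebra.lift ℂ f (UniversalEnvelopingAlgebra.ι ℂ y) : A) :
      UniversalEnvelopingAlgebra ℂ 𝔤) = UniversalEnvelopingAlgebra.ι ℂ y
    rw [UniversalEnvelopingAlgebra.lift_ι_apply, hf]
  have h2 := AlgHom.congr_fun h1 u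
  rw [AlgHom.comp_apply, AlgHom.id_apply] at h2
  rw [← h2]
  exact (UniversalEnvelopingAlgebra.lift ℂ f u).2

/-- **The ordered monomials span the enveloping algebra.** -/
theorem mo_top {n : ℕ} (b : Basis (Fin n) ℂ 𝔤) :
    Submodule.span ℂ (Set.range (mo fun i => UniversalEnvelopingAlgebra.ι ℂ (b i))) = ⊤ := by
  obtain ⟨x, hxd⟩ : ∃ x : Fin n → UniversalEnvelopingAlgebra ℂ 𝔤,
    x = fun i => UniversalEnvelopingAlgebra.ι ℂ (b i) := ⟨_, rfl⟩
  have hx : ∀ i j, ∃ c : Fin n → ℂ, x i * x j - x j * x i = ∑ k, c k • x k := fun i j => by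
    rw [hxd]
    exact ⟨_, comm_basis b i j⟩
  rw [← hxd]
  have hlow : ∀ k, low x k ≤ Submodule.span ℂ (Set.range (mo x)) := fun k =>
    Submodule.span_mono fun u ⟨α, _, h⟩ => ⟨α, h.symm⟩
  have hm : ∀ (i : Fin n) (u : UniversalEnvelopingAlgebra ℂ 𝔤),
      u ∈ Submodule.span ℂ (Set.range (mo x)) →
      x i * u ∈ Submodule.span ℂ (Set.range (mo x)) := by
    intro i u hu
    refine Submodule.span_induction (p := fun u _ => x i * u ∈
      Submodule.span ℂ (Set.range (mo x))) ?_ ?_ ?_ ?_ hu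
    · rintro u ⟨α, rfl⟩
      exact hlow _ (mul_low hx i (mem_low x (Nat.lt_succ_self _)))
    · rw [mul_zero]
      exact zero_mem _
    · intro u v _ _ h1 h2
      rw [mul_add]
      exact add_mem h1 h2
    · intro c u _ h1
      rw [mul_smul_comm]
      exact Submodule.smul_mem _ c h1
  obtain ⟨A, hA⟩ : ∃ A : Subalgebra ℂ (UniversalEnvelopingAlgebra ℂ 𝔤), ∀ u, u ∈ A ↔
      ∀ v ∈ Submodule.span ℂ (Set.range (mo x)), u * v ∈ Submodule.span ℂ (Set.range (mo x)) :=
    ⟨{ carrier := {u | ∀ v ∈ Submodule.span ℂ (Set.range (mo x)),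
          u * v ∈ Submodule.span ℂ (Set.range (mo x))}
       mul_mem' := fun {u v} h1 h2 w hw => by
         rw [mul_assoc]
         exact h1 _ (h2 _ hw)
       add_mem' := fun {u v} h1 h2 w hw => by
         rw [add_mul]
         exact add_mem (h1 _ hw) (h2 _ hw)
       algebraMap_mem' := fun c w hw => by
         rw [← Algebra.smul_def]
         exact Submodule.smul_mem _ c hw }, fun _ => Iff.rfl⟩
  rw [eq_top_iff]
  intro u _
  have h1 : u ∈ A := uea_top (fun y => by
    rw [hA]
    intro v hv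
    rw [← b.sum_repr y, map_sum, Finset.sum_mul]
    refine sum_mem fun i _ => ?_
    rw [map_smul, smul_mul_assoc]
    refine Submodule.smul_mem _ _ ?_
    have := hm i v hv
    rw [hxd] at this ⊢
    exact this) u
  have h2 := (hA u).1 h1 1 (Submodule.subset_span ⟨0, mo_zero x⟩)
  rwa [mul_one] at h2

end lie

end Ord

end Pool.MFQ
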