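import Pool.Agent.H3.MFQ.Ord

/-!
# MFQ: the ordered monomials are linearly independent (PBW)
-/

set_option autoImplicit false

namespace Pool.MFQ

open Module MvPolynomial

attribute [local instance 100] LieRing.ofAssociativeRing

namespace Ord

variable {𝔤 : Type} [LieRing 𝔤] [LieAlgebra ℂ 𝔤]

/-- Elements with the commutation relations of a basis give a representation of the enveloping
algebra. -/
theorem ex_rep {n : ℕ} (b : Basis (Fin n) ℂ 𝔤) {A : Type} [Ring A] [Algebra ℂ A] (T : Fin n → A)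
    (hT : ∀ i j, T i * T j - T j * T i = ∑ k, b.repr ⁅b i, b j⁆ k • T k) :
    ∃ F : UniversalEnvelopingAlgebra ℂ 𝔤 →ₐ[ℂ] A,
      ∀ i, F (UniversalEnvelopingAlgebra.ι ℂ (b i)) = T i := by
  obtain ⟨f, hf⟩ : ∃ f : 𝔤 →ₗ[ℂ] A, f = b.constr ℂ T := ⟨_, rfl⟩
  have hfb : ∀ i, f (b i) = T i := fun i => by
    rw [hf, Basis.constr_basis]
  have h1 : ∀ i j, f ⁅b i, b j⁆ = f (b i) * f (b j) - f (b j) * f (b i) := by
    intro i j
    conv_lhs => rw [← b.sum_repr ⁅b i, b j⁆]
    rw [hfb, hfb, hT, map_sum]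
    exact Finset.sum_congr rfl fun k _ => by rw [map_smul, hfb]
  have h2 : ∀ x y : 𝔤, f ⁅x, y⁆ = f x * f y - f y * f x := by
    intro x y
    rw [← b.sum_repr x, ← b.sum_repr y]
    simp only [sum_lie, lie_sum, smul_lie, lie_smul, map_sum, map_smul, Finset.sum_mul,
      Finset.mul_sum, smul_mul_assoc, mul_smul_comm, h1, smul_sub, Finset.sum_sub_distrib]
    refine congrArg₂ (· - ·) rfl ?_
    simp only [Finset.smul_sum]
    rw [Finset.sum_comm]
    exact Finset.sum_congr rfl fun j _ => Finset.sum_congr rfl fun i _ => smul_comm _ _ _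
  refine ⟨UniversalEnvelopingAlgebra.lift ℂ { f with map_lie' := fun {x y} => h2 x y },
    fun i => ?_⟩
  rw [UniversalEnvelopingAlgebra.lift_ι_apply]
  exact hfb i

/-- The ordered product applied to `1`. -/
theorem mo_apply {n : ℕ} {A : Type} [Ring A] [Algebra ℂ A] {x : Fin n → A}
    {F : A →ₐ[ℂ] Module.End ℂ (MvPolynomial (Fin n) ℂ)}
    (hF : ∀ (i : Fin n) (α : Fin n →₀ ℕ), (∀ j ∈ α.support, i ≤ j) →
      F (x i) (monomial α 1) = monomial (α + Finsupp.single i 1) 1) (k : ℕ) :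
    ∀ α : Fin n → ℕ, ∑ i, α i = k →
      F (mo x α) 1 = monomial (Finsupp.equivFunOnFinite.symm α) (1 : ℂ) := by
  induction k with
  | zero =>
    intro α hα
    have h1 : α = 0 := by
      funext i
      exact (Finset.sum_eq_zero_iff.1 hα) i (Finset.mem_univ i)
    rw [h1, mo_zero, map_one F]
    have h2 : (Finsupp.equivFunOnFinite.symm (0 : Fin n → ℕ) : Fin n →₀ ℕ) = 0 := by
      ext i
      rfl
    rw [h2]
    rfl
  | succ k ih =>
    intro α hα
    have h1 : ∃ i, α i ≠ 0 := by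
      by_contra hcon
      push Not at hcon
      rw [Finset.sum_eq_zero fun i _ => hcon i] at hα
      omega
    obtain ⟨i, hi⟩ := h1
    obtain ⟨j, β, -, h2, -, h4, h5⟩ := ex_head hi
    have h6 := ih β (by omega)
    rw [h4, ← mo_head x j β h2, map_mul F, Module.End.mul_apply, h6, hF]
    · apply congrArg (fun s => monomial s (1 : ℂ))
      ext l
      rw [Finsupp.add_apply]
      show β l + (Finsupp.single j 1 : Fin n →₀ ℕ) l = (β + Pi.single j 1 : Fin n → ℕ) l
      rw [Pi.add_apply, Finsupp.single_apply, Pi.single_apply]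
      simp only [eq_comm]
    · intro l hl
      by_contra hcon
      rw [Finsupp.mem_support_iff] at hl
      exact hl (h2 l (not_le.1 hcon))

end Ord

open Pool.MFQ.Ord in
/-- PBW. -/
theorem t_pbw (h : PBAStmt) : PBWStmt := by
  intro 𝔤 _ _ n b
  obtain ⟨T, hT, hT2⟩ := h 𝔤 n b
  obtain ⟨F, hF⟩ := ex_rep b T hT
  obtain ⟨x, hx⟩ : ∃ x : Fin n → UniversalEnvelopingAlgebra ℂ 𝔤,
    x = fun i => UniversalEnvelopingAlgebra.ι ℂ (b i) := ⟨_, rfl⟩
  have h1 : ∀ α : Fin n → ℕ, F (mo x α) 1 = monomial (Finsupp.equivFunOnFinite.symm α) (1 : ℂ) :=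
    fun α => mo_apply (fun i β hβ => by
      rw [hx]
      show F (UniversalEnvelopingAlgebra.ι ℂ (b i)) _ = _
      rw [hF, hT2 i β hβ]) _ α rfl
  have h2 : LinearIndependent ℂ (mo x) := by
    have h3 : LinearIndependent ℂ (fun α : Fin n → ℕ =>
        (monomial (Finsupp.equivFunOnFinite.symm α) (1 : ℂ) : MvPolynomial (Fin n) ℂ)) := by
      have h4 := (MvPolynomial.basisMonomials (Fin n) ℂ).linearIndependent
      have h5 := h4.comp (fun α : Fin n → ℕ => Finsupp.equivFunOnFinite.symm α)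
        (Finsupp.equivFunOnFinite.symm.injective)
      rw [MvPolynomial.coe_basisMonomials] at h5
      exact h5
    obtain ⟨g, hg⟩ : ∃ g : UniversalEnvelopingAlgebra ℂ 𝔤 →ₗ[ℂ] MvPolynomial (Fin n) ℂ,
      ∀ u, g u = F u 1 := ⟨(LinearMap.applyₗ (1 : MvPolynomial (Fin n) ℂ)) ∘ₗ F.toLinearMap,
        fun _ => rfl⟩
    refine LinearIndependent.of_comp g ?_
    have h6 : (g ∘ mo x : (Fin n → ℕ) → MvPolynomial (Fin n) ℂ) =
        fun α => monomial (Finsupp.equivFunOnFinite.symm α) (1 : ℂ) := by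
      funext α
      rw [Function.comp_apply, hg, h1]
    rw [h6]
    exact h3
  rw [hx] at h2
  exact h2

end Pool.MFQ
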