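import Pool.Agent.H3.MFQ.Ord

/-!
# MFQ: the enveloping algebra is torsion-free over the polynomial subalgebra (TF)
-/

set_option autoImplicit false

namespace Pool.MFQ

open Module MvPolynomial

namespace Ord

/-- The value of a homomorphism at a monomial. -/
theorem mo_monomial {U : Type} [Ring U] [Algebra ℂ U] (p : ℕ)
    (e : MvPolynomial (Fin p) ℂ →ₐ[ℂ] U) (β : Fin p → ℕ) :
    e (monomial (Finsupp.equivFunOnFinite.symm β) 1) = mo (fun i => e (X i)) β := by
  have h1 : (monomial (Finsupp.equivFunOnFinite.symm β) 1 : MvPolynomial (Fin p) ℂ) =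
      (List.ofFn fun i => (X i : MvPolynomial (Fin p) ℂ) ^ β i).prod := by
    rw [List.prod_ofFn, MvPolynomial.monomial_eq, map_one, one_mul]
    rw [Finsupp.prod_fintype _ _ fun i => pow_zero _]
    rfl
  rw [h1, map_list_prod, List.map_ofFn]
  unfold mo
  apply congrArg
  apply congrArg
  funext i
  rw [Function.comp_apply, map_pow]

/-- The combination of the ordered monomials of the second part, with coefficients in the
polynomial ring on the left. -/
noncomputable def Th {U : Type} [Ring U] [Algebra ℂ U] {p q : ℕ}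
    (e : MvPolynomial (Fin p) ℂ →ₐ[ℂ] U) (y : Fin q → U) :
    ((Fin q → ℕ) →₀ MvPolynomial (Fin p) ℂ) →ₗ[ℂ] U :=
  Finsupp.lsum ℂ fun γ => (LinearMap.mulRight ℂ (mo y γ)) ∘ₗ e.toLinearMap

theorem Th_apply {U : Type} [Ring U] [Algebra ℂ U] {p q : ℕ}
    (e : MvPolynomial (Fin p) ℂ →ₐ[ℂ] U) (y : Fin q → U)
    (A : (Fin q → ℕ) →₀ MvPolynomial (Fin p) ℂ) :
    Th e y A = A.sum fun γ a => e a * mo y γ := rfl

theorem Th_smul {U : Type} [Ring U] [Algebra ℂ U] {p q : ℕ}
    (e : MvPolynomial (Fin p) ℂ →ₐ[ℂ] U) (y : Fin q → U) (c : MvPolynomial (Fin p) ℂ)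
    (A : (Fin q → ℕ) →₀ MvPolynomial (Fin p) ℂ) : Th e y (c • A) = e c * Th e y A := by
  rw [Th_apply, Th_apply, Finsupp.sum_smul_index fun γ => by rw [map_zero, zero_mul],
    Finsupp.mul_sum]
  refine Finsupp.sum_congr fun γ _ => ?_
  rw [map_mul, mul_assoc]

/-- **Torsion-freeness** in coordinates. -/
theorem tf_fin (hPBW : PBWStmt) {𝔤 : Type} [LieRing 𝔤] [LieAlgebra ℂ 𝔤] {p q : ℕ}
    (b : Basis (Fin (p + q)) ℂ 𝔤)
    (e : MvPolynomial (Fin p) ℂ →ₐ[ℂ] UniversalEnvelopingAlgebra ℂ 𝔤)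
    (he : ∀ l, e (X l) = UniversalEnvelopingAlgebra.ι ℂ (b (Fin.castAdd q l)))
    (c : MvPolynomial (Fin p) ℂ) (hc : c ≠ 0) (u : UniversalEnvelopingAlgebra ℂ 𝔤)
    (hu : e c * u = 0) : u = 0 := by
  obtain ⟨x, hx⟩ : ∃ x : Fin (p + q) → UniversalEnvelopingAlgebra ℂ 𝔤,
    x = fun i => UniversalEnvelopingAlgebra.ι ℂ (b i) := ⟨_, rfl⟩
  obtain ⟨y, hy⟩ : ∃ y : Fin q → UniversalEnvelopingAlgebra ℂ 𝔤, y = fun j => x (Fin.natAdd p j) :=
    ⟨_, rfl⟩
  have hli : LinearIndependent ℂ (mo x) := by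
    rw [hx]
    exact hPBW 𝔤 (p + q) b
  have hsp : Submodule.span ℂ (Set.range (mo x)) = ⊤ := by
    rw [hx]
    exact mo_top b
  have hmo : ∀ α : Fin (p + q) → ℕ, mo x α =
      e (monomial (Finsupp.equivFunOnFinite.symm fun i => α (Fin.castAdd q i)) 1) *
        mo y fun j => α (Fin.natAdd p j) := by
    intro α
    rw [mo_add, mo_monomial, hy]
    have h1 : (fun i => e (X i)) = fun i => x (Fin.castAdd q i) := by
      funext i
      rw [he, hx]
    rw [h1]
  -- the basis of the left side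
  obtain ⟨B, hB⟩ : ∃ B : Basis (Σ _ : Fin q → ℕ, (Fin p →₀ ℕ)) ℂ
      ((Fin q → ℕ) →₀ MvPolynomial (Fin p) ℂ),
      ∀ (γ : Fin q → ℕ) (β : Fin p →₀ ℕ), B ⟨γ, β⟩ = Finsupp.single γ (monomial β 1) :=
    ⟨Finsupp.basis fun _ => MvPolynomial.basisMonomials (Fin p) ℂ, fun γ β => by
      rw [Finsupp.coe_basis, MvPolynomial.coe_basisMonomials]⟩
  have hTB : ∀ (γ : Fin q → ℕ) (β : Fin p →₀ ℕ), Th e y (B ⟨γ, β⟩) =
      mo x (Fin.append (fun i => β i) γ) := by
    intro γ β
    rw [hB, Th_apply, Finsupp.sum_single_index (by rw [map_zero, zero_mul]), hmo]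
    have h1 : (fun i => Fin.append (fun i => β i) γ (Fin.castAdd q i)) = fun i => β i := by
      funext i
      rw [Fin.append_left]
    have h2 : (fun j => Fin.append (fun i => β i) γ (Fin.natAdd p j)) = γ := by
      funext j
      rw [Fin.append_right]
    rw [h1, h2]
    have h3 : (Finsupp.equivFunOnFinite.symm fun i => β i : Fin p →₀ ℕ) = β := by
      ext i
      rfl
    rw [h3]
  have hinj : Function.Injective (Th e y) := by
    have h1 : LinearIndependent ℂ (Th e y ∘ B) := by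
      have h2 : (Th e y ∘ B) = mo x ∘ fun s : Σ _ : Fin q → ℕ, (Fin p →₀ ℕ) =>
          Fin.append (fun i => s.2 i) s.1 := by
        funext s
        obtain ⟨γ, β⟩ := s
        exact hTB γ β
      rw [h2]
      refine hli.comp _ ?_
      rintro ⟨γ, β⟩ ⟨γ', β'⟩ h3
      have h4 : γ = γ' := by
        funext j
        have := congrFun h3 (Fin.natAdd p j)
        simpa using this
      have h5 : β = β' := by
        ext i
        have := congrFun h3 (Fin.castAdd q i)
        simpa using this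
      rw [h4, h5]
    intro A A' hAA
    have h2 : ∀ A, Th e y A = Finsupp.linearCombination ℂ (Th e y ∘ B) (B.repr A) := by
      intro A
      conv_lhs => rw [← B.linearCombination_repr A]
      rw [Finsupp.apply_linearCombination]
    rw [h2, h2] at hAA
    exact B.repr.injective (h1 hAA)
  have hsur : Function.Surjective (Th e y) := by
    rw [← LinearMap.range_eq_top, eq_top_iff, ← hsp, Submodule.span_le]
    rintro _ ⟨α, rfl⟩
    refine ⟨Finsupp.single (fun j => α (Fin.natAdd p j))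
      (monomial (Finsupp.equivFunOnFinite.symm fun i => α (Fin.castAdd q i)) 1), ?_⟩
    rw [Th_apply, Finsupp.sum_single_index (by rw [map_zero, zero_mul]), ← hmo]
  obtain ⟨A, rfl⟩ := hsur u
  rw [← Th_smul] at hu
  have h1 : c • A = 0 := hinj (by rw [hu, map_zero])
  have h2 : A = 0 := by
    ext γ : 1
    have h3 := DFunLike.congr_fun h1 γ
    rw [Finsupp.smul_apply, Finsupp.zero_apply, smul_eq_mul, mul_eq_zero] at h3
    rw [Finsupp.zero_apply]
    exact h3.resolve_left hc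
  rw [h2, map_zero]

end Ord

open Pool.MFQ.Ord in
/-- TF. -/
theorem t_tf (h : PBWStmt) : TFStmt := by
  intro 𝔤 _ _ σ τ _ _ b e he c hc u hu
  classical
  obtain ⟨es, -⟩ : ∃ es : σ ≃ Fin (Fintype.card σ), True := ⟨Fintype.equivFin σ, trivial⟩
  obtain ⟨et, -⟩ : ∃ et : τ ≃ Fin (Fintype.card τ), True := ⟨Fintype.equivFin τ, trivial⟩
  obtain ⟨b', hb'⟩ : ∃ b' : Basis (Fin (Fintype.card σ + Fintype.card τ)) ℂ 𝔤,
      ∀ l, b' (Fin.castAdd (Fintype.card τ) l) = b (Sum.inl (es.symm l)) :=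
    ⟨b.reindex ((Equiv.sumCongr es et).trans finSumFinEquiv), fun l => by
      rw [Basis.reindex_apply]
      simp⟩
  obtain ⟨r, hr⟩ : ∃ r : MvPolynomial (Fin (Fintype.card σ)) ℂ ≃ₐ[ℂ] MvPolynomial σ ℂ,
      ∀ l, r (X l) = X (es.symm l) := ⟨MvPolynomial.renameEquiv ℂ es.symm, fun l => by
        rw [MvPolynomial.renameEquiv_apply, MvPolynomial.rename_X]⟩
  refine tf_fin h b' (e.comp r.toAlgHom) (fun l => ?_) (r.symm c) ?_ u ?_
  · show e (r (X l)) = _
    rw [hr, he, hb']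
  · rw [Ne, EmbeddingLike.map_eq_zero_iff]
    exact hc
  · show e (r (r.symm c)) * u = 0
    rw [AlgEquiv.apply_symm_apply]
    exact hu

end Pool.MFQ
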