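import Pool.Agent.H51.MFQ.S1

/-!
# MFQ: Vinberg's inequality and the theorem of Duflo and Vergne (VIN)
-/

set_option autoImplicit false

namespace Pool.MFQ

open Module

namespace Vin

/-- For almost all small `ε` a perturbation of an injective map is injective. -/
theorem ex_inj {M N : Type} [AddCommGroup M] [Module ℂ M] [FiniteDimensional ℂ M]
    [AddCommGroup N] [Module ℂ N] (f g : M →ₗ[ℂ] N) (hf : Function.Injective f) :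
    ∃ ε : ℂ, ε ≠ 0 ∧ ∀ m, f m + ε • g m = 0 → m = 0 := by
  obtain ⟨L, hL⟩ := LinearMap.exists_leftInverse_of_injective f (LinearMap.ker_eq_bot.2 hf)
  obtain ⟨Q, hQ⟩ : ∃ Q : Module.End ℂ M, ∀ m, Q m = L (g m) := ⟨L ∘ₗ g, fun _ => rfl⟩
  have h1 : Set.Finite ({μ : ℂ | Module.End.HasEigenvalue Q μ} ∪ {0}) :=
    (Module.End.finite_hasEigenvalue Q).union (Set.finite_singleton 0)
  obtain ⟨μ, hμ⟩ := h1.infinite_compl.nonempty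
  rw [Set.mem_compl_iff, Set.mem_union, not_or, Set.mem_singleton_iff] at hμ
  obtain ⟨h2, h3⟩ := hμ
  refine ⟨-μ⁻¹, neg_ne_zero.2 (inv_ne_zero h3), fun m hm => ?_⟩
  by_contra hne
  refine h2 ?_
  have h4 : L (f m) = m := LinearMap.congr_fun hL m
  have h5 : m + (-μ⁻¹) • L (g m) = 0 := by
    have := congrArg L hm
    rwa [map_add, map_smul, map_zero, h4] at this
  have h6 : L (g m) = μ • m := by
    have h7 : m = μ⁻¹ • L (g m) := by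
      rw [neg_smul, ← sub_eq_add_neg, sub_eq_zero] at h5
      exact h5
    calc L (g m) = μ • (μ⁻¹ • L (g m)) := by rw [smul_smul, mul_inv_cancel₀ h3, one_smul]
      _ = μ • m := by rw [← h7]
  exact Module.End.hasEigenvalue_of_hasEigenvector (x := m)
    ⟨Module.End.mem_eigenspace_iff.2 ((hQ m).trans h6), hne⟩

variable {𝔤 : Type} [LieRing 𝔤] [LieAlgebra ℂ 𝔤]

/-- The form of a linear function. -/
theorem ex_form (q : Dual ℂ 𝔤) : ∃ B : 𝔤 →ₗ[ℂ] 𝔤 →ₗ[ℂ] ℂ, ∀ x y, B x y = q ⁅x, y⁆ :=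
  ⟨LinearMap.mk₂ ℂ (fun x y => q ⁅x, y⁆) (fun x x' y => by rw [add_lie, map_add])
    (fun c x y => by rw [smul_lie, map_smul])
    (fun x y y' => by rw [lie_add, map_add])
    (fun c x y => by rw [lie_smul, map_smul]), fun _ _ => rfl⟩

theorem q_symm (q : Dual ℂ 𝔤) (x y : 𝔤) : q ⁅x, y⁆ = -q ⁅y, x⁆ := by
  rw [← lie_skew, map_neg]

/-- **Vinberg's inequality.** -/
theorem vin_le [FiniteDimensional ℂ 𝔤] (q p : Dual ℂ 𝔤) (W : Submodule ℂ 𝔤)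
    (hW : ∀ x, x ∈ W ↔ x ∈ stab q ∧ ∀ y ∈ stab q, p ⁅x, y⁆ = 0) :
    ∃ ξ : Dual ℂ 𝔤, finrank ℂ (stab ξ) ≤ finrank ℂ W := by
  obtain ⟨K, hK⟩ : ∃ K, K = stab q := ⟨_, rfl⟩
  have hKm : ∀ x, x ∈ K ↔ ∀ y, q ⁅x, y⁆ = 0 := fun x => by rw [hK]; rfl
  rw [← hK] at hW
  have hWK : W ≤ K := fun x hx => ((hW x).1 hx).1
  obtain ⟨U, hU⟩ := Submodule.exists_isCompl K
  obtain ⟨W', hW'⟩ := Submodule.exists_isCompl W
  obtain ⟨K₁, hK₁⟩ : ∃ K₁, K₁ = W' ⊓ K := ⟨_, rfl⟩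
  have hK₁K : K₁ ≤ K := by rw [hK₁]; exact inf_le_right
  have hd1 : Disjoint K₁ W := by
    rw [hK₁]
    exact (hW'.disjoint.symm).mono_left inf_le_left
  have hs1 : K₁ ⊔ W = K := by
    rw [hK₁, sup_comm, ← sup_inf_assoc_of_le W' hWK, hW'.sup_eq_top, top_inf_eq]
  have hd2 : Disjoint U K₁ := hU.disjoint.symm.mono_right hK₁K
  obtain ⟨Bq, hBq⟩ := ex_form q
  obtain ⟨Bp, hBp⟩ := ex_form p
  -- the two maps
  obtain ⟨f, hf⟩ : ∃ f : (U × K₁) →ₗ[ℂ] (U →ₗ[ℂ] ℂ) × (K₁ →ₗ[ℂ] ℂ), ∀ m,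
      (∀ u' : U, (f m).1 u' = q ⁅(m.1 : 𝔤), (u' : 𝔤)⁆) ∧
      ∀ k' : K₁, (f m).2 k' = p ⁅(m.1 : 𝔤) + m.2, (k' : 𝔤)⁆ := by
    refine ⟨LinearMap.prod ((U.subtype.lcomp ℂ ℂ) ∘ₗ Bq ∘ₗ U.subtype ∘ₗ LinearMap.fst ℂ U K₁)
      ((K₁.subtype.lcomp ℂ ℂ) ∘ₗ Bp ∘ₗ (U.subtype.coprod K₁.subtype)), fun m => ⟨fun u' => ?_,
        fun k' => ?_⟩⟩
    · exact hBq _ _
    · exact hBp _ _
  obtain ⟨g, hg⟩ : ∃ g : (U × K₁) →ₗ[ℂ] (U →ₗ[ℂ] ℂ) × (K₁ →ₗ[ℂ] ℂ), ∀ m,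
      (∀ u' : U, (g m).1 u' = p ⁅(m.1 : 𝔤) + m.2, (u' : 𝔤)⁆) ∧ (g m).2 = 0 := by
    refine ⟨LinearMap.prod ((U.subtype.lcomp ℂ ℂ) ∘ₗ Bp ∘ₗ (U.subtype.coprod K₁.subtype)) 0,
      fun m => ⟨fun u' => ?_, rfl⟩⟩
    exact hBp _ _
  have hinj : Function.Injective f := by
    rw [← LinearMap.ker_eq_bot, LinearMap.ker_eq_bot']
    intro m hm
    have h1 : ∀ u' : U, q ⁅(m.1 : 𝔤), (u' : 𝔤)⁆ = 0 := fun u' => by
      rw [← (hf m).1, hm]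
      rfl
    have h2 : ∀ k' : K₁, p ⁅(m.1 : 𝔤) + m.2, (k' : 𝔤)⁆ = 0 := fun k' => by
      rw [← (hf m).2, hm]
      rfl
    have h3 : (m.1 : 𝔤) ∈ K := by
      rw [hKm]
      intro y
      obtain ⟨k, hk, u, hu, rfl⟩ := Submodule.mem_sup.1
        (show y ∈ K ⊔ U by rw [hU.sup_eq_top]; trivial)
      rw [lie_add, map_add, h1 ⟨u, hu⟩, q_symm q _ k, (hKm k).1 hk, neg_zero, add_zero]
    have h4 : (m.1 : 𝔤) = 0 := (Submodule.disjoint_def.1 hU.disjoint) _ h3 m.1.2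
    have h5 : (m.2 : 𝔤) ∈ W := by
      rw [hW]
      refine ⟨hK₁K m.2.2, fun y hy => ?_⟩
      obtain ⟨k, hk, w, hw, rfl⟩ := Submodule.mem_sup.1 (show y ∈ K₁ ⊔ W by rw [hs1]; exact hy)
      have h6 := h2 ⟨k, hk⟩
      rw [h4, zero_add] at h6
      rw [lie_add, map_add, h6, q_symm p _ w, ((hW w).1 hw).2 _ (hK₁K m.2.2), neg_zero, add_zero]
    have h6 : (m.2 : 𝔤) = 0 := (Submodule.disjoint_def.1 hd1) _ m.2.2 h5
    exact Prod.ext (Subtype.ext h4) (Subtype.ext h6)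
  obtain ⟨ε, hε, hm⟩ := ex_inj f g hinj
  refine ⟨q + ε • p, ?_⟩
  have hξ : ∀ x y : 𝔤, (q + ε • p) ⁅x, y⁆ = q ⁅x, y⁆ + ε * p ⁅x, y⁆ := fun x y => rfl
  have hd3 : Disjoint (stab (q + ε • p)) (U ⊔ K₁) := by
    rw [Submodule.disjoint_def]
    intro x hx hx2
    obtain ⟨u, hu, k, hk, rfl⟩ := Submodule.mem_sup.1 hx2
    have hx' : ∀ y, q ⁅u + k, y⁆ + ε * p ⁅u + k, y⁆ = 0 := fun y => by
      rw [← hξ]
      exact hx y
    have hkK := hK₁K hk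
    have h1 := hm (⟨u, hu⟩, ⟨k, hk⟩) (by
      refine Prod.ext (LinearMap.ext fun u' => ?_) (LinearMap.ext fun k' => ?_)
      · show (f (⟨u, hu⟩, ⟨k, hk⟩)).1 u' + ε * (g (⟨u, hu⟩, ⟨k, hk⟩)).1 u' = 0
        rw [(hf _).1, (hg _).1]
        have h2 := hx' u'
        rw [add_lie u k, map_add q, (hKm k).1 hkK, add_zero] at h2
        rw [← h2, ← add_lie u k]
      · show (f (⟨u, hu⟩, ⟨k, hk⟩)).2 k' + ε * (g (⟨u, hu⟩, ⟨k, hk⟩)).2 k' = 0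
        rw [(hf _).2, (hg _).2]
        have h2 := hx' k'
        rw [q_symm q, (hKm (k' : 𝔤)).1 (hK₁K k'.2), neg_zero, zero_add, mul_eq_zero] at h2
        have h3 := h2.resolve_left hε
        show p ⁅u + k, (k' : 𝔤)⁆ + ε * 0 = 0
        rw [h3, mul_zero, add_zero])
    have h2 : u = 0 := congrArg (fun m : U × K₁ => (m.1 : 𝔤)) h1
    have h3 : k = 0 := congrArg (fun m : U × K₁ => (m.2 : 𝔤)) h1
    rw [h2, h3, add_zero]
  have e1 := Submodule.finrank_add_finrank_le_of_disjoint hd3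
  have e2 : finrank ℂ (U ⊔ K₁ : Submodule ℂ 𝔤) = finrank ℂ U + finrank ℂ K₁ := by
    have := Submodule.finrank_sup_add_finrank_inf_eq U K₁
    rw [hd2.eq_bot, finrank_bot, add_zero] at this
    exact this
  have e3 : finrank ℂ K = finrank ℂ K₁ + finrank ℂ W := by
    have := Submodule.finrank_sup_add_finrank_inf_eq K₁ W
    rw [hd1.eq_bot, finrank_bot, add_zero, hs1] at this
    exact this
  have e4 := Submodule.finrank_add_eq_of_isCompl hU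
  omega

end Vin

open Vin in
/-- VIN. -/
theorem t_vin : VINStmt := by
  intro 𝔤 _ _ _ a ha
  have h1 : ∀ (q p : Dual ℂ 𝔤) (W : Submodule ℂ 𝔤),
      (∀ x, x ∈ W ↔ x ∈ stab q ∧ ∀ y ∈ stab q, p ⁅x, y⁆ = 0) →
      finrank ℂ (stab a) ≤ finrank ℂ W := fun q p W hW => by
    obtain ⟨ξ, hξ⟩ := vin_le q p W hW
    exact (ha ξ).trans hξ
  refine ⟨h1, fun x hx y hy => ?_⟩
  by_contra hcon
  obtain ⟨p, hp⟩ : ∃ p : Dual ℂ 𝔤, p ⁅x, y⁆ ≠ 0 := by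
    by_contra hall
    push Not at hall
    exact hcon ((Module.forall_dual_apply_eq_zero_iff ℂ ⁅x, y⁆).1 hall)
  obtain ⟨W, hW⟩ : ∃ W : Submodule ℂ 𝔤, ∀ x, x ∈ W ↔ x ∈ stab a ∧ ∀ y ∈ stab a, p ⁅x, y⁆ = 0 :=
    ⟨{ carrier := {x | x ∈ stab a ∧ ∀ y ∈ stab a, p ⁅x, y⁆ = 0}
       add_mem' := fun {x x'} h h' => ⟨add_mem h.1 h'.1, fun y hy => by
         rw [add_lie, map_add, h.2 y hy, h'.2 y hy, add_zero]⟩
       zero_mem' := ⟨zero_mem _, fun y _ => by rw [zero_lie, map_zero]⟩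
       smul_mem' := fun c x h => ⟨Submodule.smul_mem _ c h.1, fun y hy => by
         rw [smul_lie, map_smul, h.2 y hy, smul_zero]⟩ }, fun _ => Iff.rfl⟩
  have h2 := h1 a p W hW
  have h3 : W ≤ stab a := fun x hx => ((hW x).1 hx).1
  have h4 : W = stab a := Submodule.eq_of_le_of_finrank_le h3 h2
  have h5 : x ∈ W := by rw [h4]; exact hx
  exact hp (((hW x).1 h5).2 y hy)

end Pool.MFQ
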